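import Mathlib

set_option autoImplicit false

open Polynomial Filter Topology

namespace Pool.Agent.Results.MP_b09cb0_an.AiryFirstIntegral

/-! ### Entire power series -/

/-- `∑ |c n| r ^ n` converges for all `r ≥ 0`. -/
def Ent (c : ℕ → ℝ) : Prop := ∀ r : ℝ, 0 ≤ r → Summable fun n => |c n| * r ^ n

/-- The sum of the power series. -/
noncomputable def ser (c : ℕ → ℝ) (x : ℝ) : ℝ := ∑' n, c n * x ^ n

/-- The coefficients of the derivative. -/
def dcoeff (c : ℕ → ℝ) (n : ℕ) : ℝ := ((n : ℝ) + 1) * c (n + 1)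

lemma ent_dcoeff {c : ℕ → ℝ} (hc : Ent c) : Ent (dcoeff c) := by
  intro r hr
  have h1 := (summable_nat_add_iff 1).mpr (hc (2 * r + 1) (by linarith))
  refine Summable.of_nonneg_of_le (fun n => by positivity) (fun n => ?_) h1
  have h2 : ((n : ℝ) + 1) * r ^ n ≤ (2 * r + 1) ^ (n + 1) := by
    have hn : ((n : ℝ) + 1) ≤ 2 ^ n := by exact_mod_cast Nat.lt_two_pow_self (n := n)
    calc ((n : ℝ) + 1) * r ^ n ≤ 2 ^ n * r ^ n := by gcongr
      _ = (2 * r) ^ n := (mul_pow _ _ _).symm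
      _ ≤ (2 * r + 1) ^ n := by gcongr; linarith
      _ ≤ (2 * r + 1) ^ (n + 1) := by
        apply pow_le_pow_right₀ (by linarith) (by omega)
  unfold dcoeff
  rw [abs_mul, abs_of_nonneg (by positivity : (0 : ℝ) ≤ (n : ℝ) + 1)]
  calc ((n : ℝ) + 1) * |c (n + 1)| * r ^ n = |c (n + 1)| * (((n : ℝ) + 1) * r ^ n) := by ring
    _ ≤ |c (n + 1)| * (2 * r + 1) ^ (n + 1) := by gcongr

lemma summable_ser {c : ℕ → ℝ} (hc : Ent c) (x : ℝ) : Summable fun n => c n * x ^ n := by
  refine Summable.of_norm ?_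
  refine (hc |x| (abs_nonneg x)).congr fun n => ?_
  rw [Real.norm_eq_abs, abs_mul, abs_pow]

lemma hasDerivAt_ser {c : ℕ → ℝ} (hc : Ent c) (x : ℝ) :
    HasDerivAt (ser c) (ser (dcoeff c) x) x := by
  set R : ℝ := |x| + 1 with hR
  have hR0 : 0 ≤ R := by positivity
  have hu : Summable fun n : ℕ => |c n| * (n * R ^ (n - 1)) := by
    rw [← summable_nat_add_iff 1]
    refine (ent_dcoeff hc R hR0).congr fun n => ?_
    unfold dcoeff
    rw [abs_mul, abs_of_nonneg (by positivity : (0 : ℝ) ≤ (n : ℝ) + 1)]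
    simp only [Nat.add_sub_cancel]
    push_cast
    ring
  have h := hasDerivAt_tsum_of_isPreconnected (g := fun n (y : ℝ) => c n * y ^ n)
    (g' := fun n (y : ℝ) => c n * (n * y ^ (n - 1))) hu Metric.isOpen_ball
    (convex_ball (0 : ℝ) R).isPreconnected
    (fun n y _ => (hasDerivAt_pow n y).const_mul (c n))
    (fun n y hy => by
      rw [mem_ball_zero_iff, Real.norm_eq_abs] at hy
      rw [Real.norm_eq_abs, abs_mul, abs_mul, abs_pow, Nat.abs_cast]
      gcongr)
    (Metric.mem_ball_self (by positivity : (0 : ℝ) < R)) (summable_ser hc 0)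
    (by rw [mem_ball_zero_iff, Real.norm_eq_abs, hR]; linarith : x ∈ Metric.ball (0 : ℝ) R)
  refine h.congr_deriv ?_
  have hs : Summable fun n : ℕ => c n * (n * x ^ (n - 1)) := by
    rw [← summable_nat_add_iff 1]
    refine (summable_ser (ent_dcoeff hc) x).congr fun n => ?_
    unfold dcoeff
    simp only [Nat.add_sub_cancel]
    push_cast
    ring
  rw [hs.tsum_eq_zero_add]
  simp only [CharP.cast_eq_zero, zero_mul, mul_zero, zero_add, ser]
  refine tsum_congr fun n => ?_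
  unfold dcoeff
  simp only [Nat.add_sub_cancel]
  push_cast
  ring

lemma analytic_ser {c : ℕ → ℝ} (hc : Ent c) : AnalyticOnNhd ℝ (ser c) Set.univ := by
  have hrad : (FormalMultilinearSeries.ofScalars ℝ c).radius = ⊤ := by
    apply FormalMultilinearSeries.radius_eq_top_of_summable_norm
    intro r
    refine (hc r r.2).congr fun n => ?_
    rw [FormalMultilinearSeries.ofScalars_norm, Real.norm_eq_abs]
  have h := (FormalMultilinearSeries.ofScalars ℝ c).hasFPowerSeriesOnBall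
    (by rw [hrad]; exact ENNReal.zero_lt_top)
  rw [hrad] at h
  have h2 := h.analyticOnNhd
  rw [Metric.eball_top] at h2
  have hf : (FormalMultilinearSeries.ofScalars ℝ c).sum = ser c := by
    funext x
    have := FormalMultilinearSeries.ofScalars_sum_eq c x
    unfold FormalMultilinearSeries.ofScalarsSum at this
    rw [this]
    simp only [ser, smul_eq_mul]
  rwa [hf] at h2

/-! ### The Airy equation -/

/-- Coefficients of the solution of `w'' = k s w`, `w 0 = α`, `w' 0 = β`. -/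
noncomputable def airyCoeff (k α β : ℝ) : ℕ → ℝ
  | 0 => α
  | 1 => β
  | 2 => 0
  | (n + 3) => k * airyCoeff k α β n / (((n : ℝ) + 3) * ((n : ℝ) + 2))

lemma ent_airy (k α β : ℝ) : Ent (airyCoeff k α β) := by
  intro r hr
  set ρ : ℝ := r + 1 with hρ
  have hρ0 : 0 < ρ := by linarith
  obtain ⟨N, hN⟩ := exists_nat_ge (|k| * ρ ^ 3)
  set c := airyCoeff k α β with hc
  have hbd : ∀ n, |c n| * ρ ^ n ≤ ∑ i ∈ Finset.range (N + 3), |c i| * ρ ^ i := by
    intro n
    induction n using Nat.strong_induction_on with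
    | _ n ih =>
      rcases Nat.lt_or_ge n (N + 3) with h | h
      · exact Finset.single_le_sum (f := fun i => |c i| * ρ ^ i) (fun i _ => by positivity)
          (Finset.mem_range.mpr h)
      · obtain ⟨m, rfl⟩ : ∃ m, n = m + 3 := ⟨n - 3, by omega⟩
        have h1 := ih m (by omega)
        have h2 : c (m + 3) = k * c m / (((m : ℝ) + 3) * ((m : ℝ) + 2)) := by
          rw [hc, airyCoeff]
        have hNm : (N : ℝ) ≤ m := by exact_mod_cast (by omega : N ≤ m)
        have hden : (0 : ℝ) < ((m : ℝ) + 3) * ((m : ℝ) + 2) := by positivity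
        have h3 : |k| * ρ ^ 3 ≤ ((m : ℝ) + 3) * ((m : ℝ) + 2) := by
          have : (0 : ℝ) ≤ m := by positivity
          nlinarith
        calc |c (m + 3)| * ρ ^ (m + 3)
            = |c m| * ρ ^ m * (|k| * ρ ^ 3 / (((m : ℝ) + 3) * ((m : ℝ) + 2))) := by
              rw [h2, abs_div, abs_mul, abs_of_pos hden]; ring
          _ ≤ |c m| * ρ ^ m * 1 := by
              gcongr
              exact (div_le_one hden).mpr h3
          _ ≤ _ := by rw [mul_one]; exact h1
  set M := ∑ i ∈ Finset.range (N + 3), |c i| * ρ ^ i with hM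
  have hgeo : Summable fun n : ℕ => M * (r / ρ) ^ n := by
    refine (summable_geometric_of_lt_one (by positivity) ?_).mul_left M
    rw [div_lt_one hρ0, hρ]; linarith
  refine Summable.of_nonneg_of_le (fun n => by positivity) (fun n => ?_) hgeo
  have h1 := hbd n
  rw [div_pow, mul_div_assoc', le_div_iff₀ (by positivity)]
  calc |c n| * r ^ n * ρ ^ n = |c n| * ρ ^ n * r ^ n := by ring
    _ ≤ M * r ^ n := by gcongr

lemma airy_ode (k α β x : ℝ) :
    ser (dcoeff (dcoeff (airyCoeff k α β))) x = k * x * ser (airyCoeff k α β) x := by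
  have hs := summable_ser (ent_dcoeff (ent_dcoeff (ent_airy k α β))) x
  unfold ser
  rw [hs.tsum_eq_zero_add, ← tsum_mul_left]
  have h0 : dcoeff (dcoeff (airyCoeff k α β)) 0 * x ^ 0 = 0 := by
    simp [dcoeff, airyCoeff]
  rw [h0, zero_add]
  refine tsum_congr fun n => ?_
  unfold dcoeff
  rw [airyCoeff]
  push_cast
  have h3 : ((n : ℝ) + 3) ≠ 0 := by positivity
  have h2 : ((n : ℝ) + 2) ≠ 0 := by positivity
  have e2 : (n : ℝ) + 1 + 1 = (n : ℝ) + 2 := by ring
  have e3 : (n : ℝ) + 1 + 1 + 1 = (n : ℝ) + 3 := by ring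
  rw [e2]
  rw [show (n : ℝ) + 2 + 1 = (n : ℝ) + 3 by ring]
  field_simp
  ring

lemma ser_zero (c : ℕ → ℝ) : ser c 0 = c 0 := by
  unfold ser
  rw [tsum_eq_single 0]
  · simp
  · intro n hn
    simp [hn]

/-- Existence of real-analytic functions `A, B` on `ℝ` with derivatives `A', B'` solving
`w'' = (p y + q) w`, `p ≠ 0`, with Wronskian `A B' - A' B = 1`. -/
lemma exists_airy (p q : ℝ) (hp : p ≠ 0) :
    ∃ A B A' B' : ℝ → ℝ, AnalyticOnNhd ℝ A Set.univ ∧ AnalyticOnNhd ℝ B Set.univ ∧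
      AnalyticOnNhd ℝ A' Set.univ ∧ AnalyticOnNhd ℝ B' Set.univ ∧
      (∀ y, HasDerivAt A (A' y) y) ∧ (∀ y, HasDerivAt B (B' y) y) ∧
      (∀ y, HasDerivAt A' ((p * y + q) * A y) y) ∧ (∀ y, HasDerivAt B' ((p * y + q) * B y) y) ∧
      (∀ y, A y * B' y - A' y * B y = 1) ∧
      ∃ y₀, A y₀ = 1 ∧ A' y₀ = 0 ∧ B y₀ = 0 ∧ B' y₀ = 1 := by
  set s : ℝ → ℝ := fun y => y + q / p with hs
  have hsan : AnalyticOnNhd ℝ s Set.univ := fun y _ => analyticAt_id.add analyticAt_const
  have hsd : ∀ y, HasDerivAt s 1 y := fun y => (hasDerivAt_id y).add_const _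
  have hpq : ∀ y, p * s y = p * y + q := by
    intro y; simp only [hs]; field_simp
  have han : ∀ c : ℕ → ℝ, Ent c → AnalyticOnNhd ℝ (fun y => ser c (s y)) Set.univ := by
    intro c hc
    exact (analytic_ser hc).comp hsan (fun y _ => Set.mem_univ _)
  have hder : ∀ c : ℕ → ℝ, Ent c → ∀ y,
      HasDerivAt (fun y => ser c (s y)) (ser (dcoeff c) (s y)) y := by
    intro c hc y
    have := (hasDerivAt_ser hc (s y)).comp y (hsd y)
    rw [mul_one] at this
    exact this
  have hA := ent_airy p 1 0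
  have hB := ent_airy p 0 1
  have hsd2 : ∀ α β y, HasDerivAt (fun y => ser (dcoeff (airyCoeff p α β)) (s y))
      ((p * y + q) * ser (airyCoeff p α β) (s y)) y := by
    intro α β y
    have := hder _ (ent_dcoeff (ent_airy p α β)) y
    rw [airy_ode, hpq] at this
    exact this
  have hW : ∀ y, HasDerivAt (fun y => ser (airyCoeff p 1 0) (s y) *
      ser (dcoeff (airyCoeff p 0 1)) (s y) -
      ser (dcoeff (airyCoeff p 1 0)) (s y) * ser (airyCoeff p 0 1) (s y)) 0 y := by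
    intro y
    have h := ((hder _ hA y).mul (hsd2 0 1 y)).sub ((hsd2 1 0 y).mul (hder _ hB y))
    refine h.congr_deriv ?_
    ring
  have hy0 : s (-(q / p)) = 0 := by simp [hs]
  have v1 : ser (airyCoeff p 1 0) (s (-(q / p))) = 1 := by
    rw [hy0, ser_zero]; simp [airyCoeff]
  have v2 : ser (dcoeff (airyCoeff p 1 0)) (s (-(q / p))) = 0 := by
    rw [hy0, ser_zero]; simp [dcoeff, airyCoeff]
  have v3 : ser (airyCoeff p 0 1) (s (-(q / p))) = 0 := by
    rw [hy0, ser_zero]; simp [airyCoeff]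
  have v4 : ser (dcoeff (airyCoeff p 0 1)) (s (-(q / p))) = 1 := by
    rw [hy0, ser_zero]; simp [dcoeff, airyCoeff]
  refine ⟨fun y => ser (airyCoeff p 1 0) (s y), fun y => ser (airyCoeff p 0 1) (s y),
    fun y => ser (dcoeff (airyCoeff p 1 0)) (s y), fun y => ser (dcoeff (airyCoeff p 0 1)) (s y),
    han _ hA, han _ hB, han _ (ent_dcoeff hA), han _ (ent_dcoeff hB), hder _ hA, hder _ hB,
    hsd2 1 0, hsd2 0 1, ?_, -(q / p), v1, v2, v3, v4⟩
  intro y
  have hconst := is_const_of_deriv_eq_zero (fun y => (hW y).differentiableAt)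
    (fun y => (hW y).deriv) y (-(q / p))
  beta_reduce at hconst ⊢
  rw [hconst, v1, v2, v3, v4]
  norm_num

/-- The planar vector field of the system `x' = y - E(x)`, `y' = -x`. -/
def lienard (E : ℝ[X]) (z : ℝ × ℝ) : ℝ × ℝ := (z.2 - E.eval z.1, -z.1)

/-- `H` is a global analytic first integral of `x' = y - E(x)`, `y' = -x`: it is real-analytic on
the whole plane, not constant, and `(y - E(x)) ∂H/∂x - x ∂H/∂y = 0` everywhere. -/
def IsGlobalAnalyticFirstIntegral (E : ℝ[X]) (H : ℝ × ℝ → ℝ) : Prop :=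
  AnalyticOnNhd ℝ H Set.univ ∧ (∃ z w, H z ≠ H w) ∧ ∀ z, fderiv ℝ H z (lienard E z) = 0

/-- **Disproof of Q1.** Every even polynomial `E` of degree `4` (for instance `x ^ 4`) admits a
global analytic first integral on `ℝ²` for the Liénard system `x' = y - E(x)`, `y' = -x`. -/
theorem result : ∀ E : ℝ[X], E.natDegree = 4 → (∀ x : ℝ, E.eval (-x) = E.eval x) →
    ∃ H : ℝ × ℝ → ℝ, IsGlobalAnalyticFirstIntegral E H := by
  intro E hdeg heven
  -- `E = a x ^ 4 + b x ^ 2 + c`
  obtain ⟨a, b, c, ha, hE⟩ : ∃ a b c : ℝ, a ≠ 0 ∧ ∀ x, E.eval x = a * x ^ 4 + b * x ^ 2 + c := by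
    have hex : ∀ x, E.eval x = E.coeff 0 + E.coeff 1 * x + E.coeff 2 * x ^ 2 +
        E.coeff 3 * x ^ 3 + E.coeff 4 * x ^ 4 := by
      intro x
      rw [eval_eq_sum_range, hdeg]
      simp [Finset.sum_range_succ]
    refine ⟨E.coeff 4, E.coeff 2, E.coeff 0, ?_, ?_⟩
    · rw [← hdeg]
      have : E ≠ 0 := by rintro rfl; simp at hdeg
      simpa using this
    · have h1 : ∀ x, E.coeff 1 * x + E.coeff 3 * x ^ 3 = 0 := by
        intro x
        have := heven x
        rw [hex, hex] at this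
        linarith [this, (by ring : (-x) ^ 3 = -x ^ 3), (by ring : (-x) ^ 2 = x ^ 2),
          (by ring : (-x) ^ 4 = x ^ 4), congrArg (fun t => E.coeff 3 * t) (by ring : (-x) ^ 3 = -x ^ 3),
          congrArg (fun t => E.coeff 2 * t) (by ring : (-x) ^ 2 = x ^ 2),
          congrArg (fun t => E.coeff 4 * t) (by ring : (-x) ^ 4 = x ^ 4)]
      intro x
      rw [hex]
      have := h1 x
      linarith
  obtain ⟨A, B, A', B', hA, hB, hA', hB', dA, dB, dA', dB', hW, y₀, v1, v2, v3, v4⟩ :=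
    exists_airy (4 * a) (b ^ 2 - 4 * a * c) (by positivity)
  -- the two functions with the cofactor `-(2 a x^3 + b x)`
  set Q : ℝ × ℝ → ℝ := fun z => A' z.2 + (2 * a * z.1 ^ 2 + b) * A z.2 with hQ
  set P : ℝ × ℝ → ℝ := fun z => B' z.2 + (2 * a * z.1 ^ 2 + b) * B z.2 with hP
  have hfst : ∀ z : ℝ × ℝ, HasFDerivAt (fun z : ℝ × ℝ => z.1) (ContinuousLinearMap.fst ℝ ℝ ℝ) z :=
    fun z => hasFDerivAt_fst
  have hsnd : ∀ z : ℝ × ℝ, HasFDerivAt (fun z : ℝ × ℝ => z.2) (ContinuousLinearMap.snd ℝ ℝ ℝ) z :=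
    fun z => hasFDerivAt_snd
  have hdQ : ∀ (w w' : ℝ → ℝ) (_ : ∀ y, HasDerivAt w (w' y) y)
      (_ : ∀ y, HasDerivAt w' ((4 * a * y + (b ^ 2 - 4 * a * c)) * w y) y) (z : ℝ × ℝ),
      ∃ L : ℝ × ℝ →L[ℝ] ℝ, HasFDerivAt (fun z : ℝ × ℝ => w' z.2 + (2 * a * z.1 ^ 2 + b) * w z.2) L z ∧
        L (lienard E z) = -(2 * a * z.1 ^ 3 + b * z.1) *
          (w' z.2 + (2 * a * z.1 ^ 2 + b) * w z.2) := by
    intro w w' hw hw' z
    have h1 := (hw' z.2).comp_hasFDerivAt z (hsnd z)
    have h2 := (hw z.2).comp_hasFDerivAt z (hsnd z)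
    have h3 : HasFDerivAt (fun z : ℝ × ℝ => 2 * a * z.1 ^ 2 + b)
        ((4 * a * z.1) • ContinuousLinearMap.fst ℝ ℝ ℝ) z := by
      have h4 : HasDerivAt (fun x : ℝ => 2 * a * x ^ 2 + b) (4 * a * z.1) z.1 := by
        have := ((hasDerivAt_pow 2 z.1).const_mul (2 * a)).add_const b
        refine this.congr_deriv ?_
        simp; ring
      exact h4.comp_hasFDerivAt z (hfst z)
    have h5 := h1.add (h3.mul h2)
    refine ⟨_, h5, ?_⟩
    simp only [add_apply, smul_apply,
      ContinuousLinearMap.coe_fst', ContinuousLinearMap.coe_snd', smul_eq_mul, lienard, hE,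
      Function.comp]
    ring
  have hanQ : ∀ (w w' : ℝ → ℝ), AnalyticOnNhd ℝ w Set.univ → AnalyticOnNhd ℝ w' Set.univ →
      AnalyticOnNhd ℝ (fun z : ℝ × ℝ => w' z.2 + (2 * a * z.1 ^ 2 + b) * w z.2) Set.univ := by
    intro w w' hw hw'
    have s2 : AnalyticOnNhd ℝ (fun z : ℝ × ℝ => z.2) Set.univ := fun z _ => analyticAt_snd
    have s1 : AnalyticOnNhd ℝ (fun z : ℝ × ℝ => z.1) Set.univ := fun z _ => analyticAt_fst
    have c1 : AnalyticOnNhd ℝ (fun _ : ℝ × ℝ => 2 * a) Set.univ := fun z _ => analyticAt_const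
    have c2 : AnalyticOnNhd ℝ (fun _ : ℝ × ℝ => b) Set.univ := fun z _ => analyticAt_const
    exact (hw'.comp s2 (fun _ _ => Set.mem_univ _)).add
      (((c1.mul (s1.pow 2)).add c2).mul (hw.comp s2 (fun _ _ => Set.mem_univ _)))
  have hpos : ∀ z, 0 < P z ^ 2 + Q z ^ 2 := by
    intro z
    by_contra hcon
    push Not at hcon
    have hP0 : P z = 0 := by nlinarith [sq_nonneg (P z), sq_nonneg (Q z)]
    have hQ0 : Q z = 0 := by nlinarith [sq_nonneg (P z), sq_nonneg (Q z)]
    have := hW z.2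
    simp only [hP, hQ] at hP0 hQ0
    have e1 : A z.2 * B' z.2 - A' z.2 * B z.2 =
      A z.2 * (B' z.2 + (2 * a * z.1 ^ 2 + b) * B z.2) -
        (A' z.2 + (2 * a * z.1 ^ 2 + b) * A z.2) * B z.2 := by ring
    rw [e1, hP0, hQ0] at this
    simp at this
  refine ⟨fun z => Q z ^ 2 / (P z ^ 2 + Q z ^ 2), ?_, ?_, ?_⟩
  · have aQ := hanQ A A' hA hA'
    have aP := hanQ B B' hB hB'
    exact (aQ.pow 2).div ((aP.pow 2).add (aQ.pow 2)) (fun z _ => (hpos z).ne')
  · -- non-constant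
    by_contra hcon
    push Not at hcon
    have hval : ∀ x, Q (x, y₀) ^ 2 / (P (x, y₀) ^ 2 + Q (x, y₀) ^ 2) =
        (2 * a * x ^ 2 + b) ^ 2 / (1 + (2 * a * x ^ 2 + b) ^ 2) := by
      intro x
      simp only [hP, hQ, v1, v2, v3, v4]
      norm_num
    have heq : ∀ x x' : ℝ, (2 * a * x ^ 2 + b) ^ 2 = (2 * a * x' ^ 2 + b) ^ 2 := by
      intro x x'
      have h := hcon (x, y₀) (x', y₀)
      beta_reduce at h
      rw [hval, hval, div_eq_div_iff (by positivity) (by positivity)] at h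
      linarith
    have h1 := heq 0 1
    have h2 := heq 0 2
    have h3 : a * (a + b) = 0 := by nlinarith
    have h4 : a * (4 * a + b) = 0 := by nlinarith
    have h5 : a + b = 0 := (mul_eq_zero.mp h3).resolve_left ha
    have h6 : 4 * a + b = 0 := (mul_eq_zero.mp h4).resolve_left ha
    exact ha (by linarith)
  · intro z
    obtain ⟨L1, hL1, e1⟩ := hdQ A A' dA dA' z
    obtain ⟨L2, hL2, e2⟩ := hdQ B B' dB dB' z
    set κ : ℝ := -(2 * a * z.1 ^ 3 + b * z.1) with hκ
    have hN : HasFDerivAt (fun z => Q z ^ 2) ((2 * Q z) • L1) z := by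
      have h4 : HasDerivAt (fun x : ℝ => x ^ 2) (2 * Q z) (Q z) := by
        simpa using hasDerivAt_pow 2 (Q z)
      exact h4.comp_hasFDerivAt z hL1
    have hM : HasFDerivAt (fun z => P z ^ 2) ((2 * P z) • L2) z := by
      have h4 : HasDerivAt (fun x : ℝ => x ^ 2) (2 * P z) (P z) := by
        simpa using hasDerivAt_pow 2 (P z)
      exact h4.comp_hasFDerivAt z hL2
    have hD := hM.add hN
    have hI := (hasDerivAt_inv (hpos z).ne').comp_hasFDerivAt z hD
    have hH := hN.mul hI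
    have hfun : (fun z => Q z ^ 2 / (P z ^ 2 + Q z ^ 2)) =
        fun z => Q z ^ 2 * (P z ^ 2 + Q z ^ 2)⁻¹ := by
      funext w
      rw [div_eq_mul_inv]
    rw [hfun]
    refine (congrArg (fun L => L (lienard E z)) hH.fderiv).trans ?_
    have f1 : L1 (lienard E z) = κ * Q z := e1
    have f2 : L2 (lienard E z) = κ * P z := e2
    simp only [add_apply, smul_apply, smul_eq_mul, f1, f2, Function.comp, Pi.add_apply]
    have hne := (hpos z).ne'
    field_simp
    ring

end Pool.Agent.Results.MP_b09cb0_an.AiryFirstIntegral
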